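import Pool.Agent.P.MP_4197d5_co.Inf.Red

set_option autoImplicit false

namespace Pool.Agent.Results.MP_4197d5_co.AllGraphs

/-- Let `M` be a set of `k ≥ 1` pairwise disjoint edges of a graph, finite or infinite. Suppose
that every separator with fewer than `k` vertices leaves two edges of `M` in each component, and
that the ends of `M` and their neighbours have at least `k + 1` neighbours. Then `M` lies on a
cycle iff no odd edge cut is contained in `M`. -/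
theorem result (V : Type) (G : SimpleGraph V) (M : Finset (Sym2 V))
    (hne : M.Nonempty) (hM : (↑M : Set (Sym2 V)) ⊆ G.edgeSet)
    (hdisj : ∀ e ∈ M, ∀ f ∈ M, e ≠ f → ∀ x ∈ e, x ∉ f)
    (hsep : ∀ S : Finset V, S.card < M.card → ∀ x y : ↥((↑S : Set V)ᶜ),
      ¬ (G.induce ((↑S : Set V)ᶜ)).Reachable x y →
        ∃ e ∈ M, ∃ f ∈ M, e ≠ f ∧ ∀ z, z ∈ e ∨ z ∈ f →
          ∃ h : z ∈ (↑S : Set V)ᶜ, (G.induce ((↑S : Set V)ᶜ)).Reachable x ⟨z, h⟩)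
    (hdeg : ∀ e ∈ M, ∀ u ∈ e, ∀ v, v = u ∨ G.Adj v u →
      ((M.card + 1 : ℕ) : ℕ∞) ≤ (G.neighborSet v).encard) :
    (∃ (v : V) (p : G.Walk v v), p.IsCycle ∧ ∀ e ∈ M, e ∈ p.edges) ↔
      ∀ Y : Set V, {e | e ∈ G.edgeSet ∧ ∃ x ∈ Y, ∃ y ∉ Y, e = s(x, y)} ⊆ ↑M →
        Even {e | e ∈ G.edgeSet ∧ ∃ x ∈ Y, ∃ y ∉ Y, e = s(x, y)}.ncard :=
  ⟨fun ⟨_, p, hp, h⟩ Y hY => P.MP_4197d5_co.Inf.cut_even Y p hp fun e he => h e (hY he),
    P.MP_4197d5_co.Inf.rel_cycle G M hne hM hdisj hsep hdeg⟩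

end Pool.Agent.Results.MP_4197d5_co.AllGraphs
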